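import Pool.Agent.HCH.Cor

/-!
# Fixed-angle chains with hierarchical lengths and generic angles are flat-state connected

The first part is the theorem with explicit constants; the second part is its consequence for
lengths that pairwise differ by a large factor.
-/

set_option autoImplicit false

namespace Pool.Agent.Results.MP_07bb12_co.HierarchicalChains

open Real Finset Pool.Agent.Lib_helper54.Flat Pool.Agent.HCH

/-- (1) Two flat non-self-intersecting configurations `P`, `Q` of the same open fixed-angle chain
are joined by a motion in the free space if the lengths are hierarchical and the joint angles are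
generic, both with the same constant `s`. (2) If no sum, with signs, of consecutive joint angles
is a multiple of `π`, then there is a number `C` such that every chain with these joint angles, the
lengths of whose links pairwise differ by a factor of at least `C`, is flat-state connected. -/
theorem result :
    (∀ (n : ℕ) (P Q : Fin (n + 1) → E3) (s : ℝ), 0 < s → IsSimple P →
      Coplanar ℝ (Set.range P) → Coplanar ℝ (Set.range Q) → Q ∈ freeSpace P →
      Hier n (ll P) s → Gen n (ll P) (jointAngle P) s → JoinedIn (freeSpace P) P Q) ∧
    ∀ (n : ℕ) (θ : ℕ → ℝ),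
      (∀ σ : ℕ → ℝ, (∀ k, σ k = 1 ∨ σ k = -1) → ∀ a b, a < b → b < n →
        sin (∑ k ∈ Ico a b, σ k * θ k) ≠ 0) →
      ∃ C : ℝ, ∀ P Q : Fin (n + 1) → E3, IsSimple P → Coplanar ℝ (Set.range P) →
        Coplanar ℝ (Set.range Q) → Q ∈ freeSpace P →
        (∀ k, k + 2 ≤ n → jointAngle P k = θ k) →
        (∀ i j, i < n → j < n → i ≠ j → C * ll P i ≤ ll P j ∨ C * ll P j ≤ ll P i) →
        JoinedIn (freeSpace P) P Q :=
  ⟨fun _ _ _ _ hs hP cP cQ hQ hH hG => main hs hP cP cQ hQ hH hG,
    fun n θ h => lacunary n θ h⟩

end Pool.Agent.Results.MP_07bb12_co.HierarchicalChains
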