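import Pool.Agent.ThinA.Back

/-!
# Fixed-angle chains whose joint angles are near 0 or 180 degrees, with an explicit constant
-/

set_option autoImplicit false

namespace Pool.Agent.Results.MP_07bb12_co.SmallAngles

open Real Finset Pool.Agent.Lib_helper54.Flat Pool.Agent.ThinA

/-- Let `P`, `Q` be flat non-self-intersecting configurations of the same open fixed-angle chain
with `n` links, all joint angles `θ` less than `π`, and let the sum of `min θ (π - θ)` over all
joint angles be at most `3 / 5` (34 degrees). Then `P` and `Q` are joined by a motion in the free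
space (1) if every inner vertex of the completely folded chain is extreme among the vertices up to
it or among the vertices from it on (see `Extreme`); (2) in particular if any two consecutive links
one of which is directed to the left in the folded chain have this property: the other one is
directed to the right and is at least as long; (3) if the lengths increase up to the link number
`p` and decrease from there on, and the sum of the joint angles `θ` is at most `3 / 5`. -/
theorem result :
    (∀ (n : ℕ) (P Q : Fin (n + 1) → E3), IsSimple P → Coplanar ℝ (Set.range P) →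
      Coplanar ℝ (Set.range Q) → Q ∈ freeSpace P →
      (∀ k, k + 2 ≤ n → jointAngle P k < π) →
      ∑ k ∈ range (n - 1), min (jointAngle P k) (π - jointAngle P k) ≤ 3 / 5 →
      Extreme P → JoinedIn (freeSpace P) P Q) ∧
    (∀ (n : ℕ) (P Q : Fin (n + 1) → E3), IsSimple P → Coplanar ℝ (Set.range P) →
      Coplanar ℝ (Set.range Q) → Q ∈ freeSpace P →
      (∀ k, k + 2 ≤ n → jointAngle P k < π) →
      ∑ k ∈ range (n - 1), min (jointAngle P k) (π - jointAngle P k) ≤ 3 / 5 →
      (∀ k, k + 1 < n → dirn P k = -1 → dirn P (k + 1) = 1 ∧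
        dist (vx P k) (vx P (k + 1)) ≤ dist (vx P (k + 1)) (vx P (k + 2))) →
      (∀ k, k + 1 < n → dirn P (k + 1) = -1 → dirn P k = 1 ∧
        dist (vx P (k + 1)) (vx P (k + 2)) ≤ dist (vx P k) (vx P (k + 1))) →
      JoinedIn (freeSpace P) P Q) ∧
    ∀ (n p : ℕ) (P Q : Fin (n + 1) → E3), IsSimple P → Coplanar ℝ (Set.range P) →
      Coplanar ℝ (Set.range Q) → Q ∈ freeSpace P →
      ∑ k ∈ range (n - 1), jointAngle P k ≤ 3 / 5 →
      (∀ k, k + 1 < n → k + 1 ≤ p →
        dist (vx P k) (vx P (k + 1)) ≤ dist (vx P (k + 1)) (vx P (k + 2))) →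
      (∀ k, k + 1 < n → p ≤ k →
        dist (vx P (k + 1)) (vx P (k + 2)) ≤ dist (vx P k) (vx P (k + 1))) →
      JoinedIn (freeSpace P) P Q :=
  ⟨fun _ _ _ hP cP cQ hQ hpi hs hE => main_extreme hP cP cQ hQ hE hpi hs,
    fun _ _ _ hP cP cQ hQ hpi hs h1 h2 =>
      main_extreme hP cP cQ hQ (extreme_of_back h1 h2) hpi hs,
    fun _ _ _ _ hP cP cQ hQ hs h1 h2 => main_unimodal hP cP cQ hQ h1 h2 hs⟩

end Pool.Agent.Results.MP_07bb12_co.SmallAngles
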