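import Pool.Agent.ThinH.Hyper
import Pool.Agent.ThinA.Lim

/-!
# Thin fixed-angle chains are flat-state connected

A chain is thin if all its links are nearly parallel, that is, all joint angles are near `0` or
near `π`: here the joint angles are `ε a k` (at the folded joints) and `π - ε a k` (at the other
joints), `ε` small. If for one choice of the turns the limit polygon is simple, the chain is
flat-state connected for all small `ε > 0`. For all `a k > 0` and all lengths off finitely many
hyperplanes, and for all lengths (for instance, all equal to `1`) and all `a k > 0` off finitely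
many hyperplanes, the chain is flat-state connected for all small `ε > 0`. The last two parts are
the explicit criteria: two flat configurations of the same chain are joined if any two points of
links that are not adjacent are apart in at least one of them; and one flat configuration in which
all of them are apart is joined to all flat configurations.
-/

set_option autoImplicit false

namespace Pool.Agent.Results.MP_07bb12_co.ThinChains

open Real Pool.Agent.Lib_helper54.Flat Pool.Agent.Thin Pool.Agent.ThinA

/-- For all small `ε > 0` the open fixed-angle chain with `n` links of the lengths `ℓ k`, and the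
joint angles `ε a k` (folded joints) and `π - ε a k` (other joints), is flat-state connected: any two
flat non-self-intersecting configurations of it are joined by a motion in the free space. -/
def ThinConnected (n : ℕ) (ℓ a : ℕ → ℝ) (fold : ℕ → Bool) : Prop :=
  ∃ ε₀ : ℝ, 0 < ε₀ ∧ ∀ ε : ℝ, 0 < ε → ε < ε₀ →
    ∀ P Q : Fin (n + 1) → E3, IsSimple P → IsSimple Q → Coplanar ℝ (Set.range P) →
      Coplanar ℝ (Set.range Q) → IsThin ℓ a fold ε P → IsThin ℓ a fold ε Q →
      JoinedIn (freeSpace P) P Q

/-- (1) Thin chains are flat-state connected if for one choice of the turns the limit polygon is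
simple; (2) for all `a k > 0` and all lengths off finitely many hyperplanes; (3) for all positive
lengths and all `a k > 0` off finitely many hyperplanes. (4) Two flat non-self-intersecting
configurations `P`, `Q` of the same open fixed-angle chain are joined by a motion in the free space
if any point of a link and any point of a link that is not adjacent to it have in at least one of
`P`, `Q` a distance of more than `L * A ^ 2` (see `Apart`). (5) If this holds in `P` for all such
points (see `Gap`), then `P` is joined to all flat non-self-intersecting configurations `Q` of the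
chain. -/
theorem result :
    (∀ (n : ℕ) (fold : ℕ → Bool) (ℓ a s : ℕ → ℝ), (∀ k, k + 2 ≤ n → 0 < a k) →
      (∀ k, s k = 1 ∨ s k = -1) → LimSimple n ℓ a fold s → ThinConnected n ℓ a fold) ∧
    (∀ (n : ℕ) (fold : ℕ → Bool) (a : ℕ → ℝ), (∀ k, k + 2 ≤ n → 0 < a k) →
      ∃ H : Finset (Fin n → ℝ), (∀ h ∈ H, h ≠ 0) ∧
        ∀ ℓ : ℕ → ℝ, (∀ h ∈ H, ∑ k : Fin n, h k * ℓ k ≠ 0) → ThinConnected n ℓ a fold) ∧
    (∀ (n : ℕ) (fold : ℕ → Bool) (ℓ : ℕ → ℝ), (∀ k, k < n → 0 < ℓ k) →
      ∃ H : Finset (Fin (n - 1) → ℝ), (∀ h ∈ H, h ≠ 0) ∧
        ∀ a : ℕ → ℝ, (∀ k, k + 2 ≤ n → 0 < a k) →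
          (∀ h ∈ H, ∑ k : Fin (n - 1), h k * a k ≠ 0) → ThinConnected n ℓ a fold) ∧
    (∀ (n : ℕ) (P Q : Fin (n + 1) → E3), IsSimple P → Coplanar ℝ (Set.range P) →
      Coplanar ℝ (Set.range Q) → Q ∈ freeSpace P → Apart P Q → JoinedIn (freeSpace P) P Q) ∧
    ∀ (n : ℕ) (P Q : Fin (n + 1) → E3), IsSimple P → Coplanar ℝ (Set.range P) →
      Coplanar ℝ (Set.range Q) → Q ∈ freeSpace P → Gap P → JoinedIn (freeSpace P) P Q := by
  refine ⟨fun n fold ℓ a s ha hs hsim => one_simple ha hs hsim, fun n fold a ha => ?_,
    fun n fold ℓ hl => ?_, fun _ _ _ hP cP cQ hQ hA => joined_of_apart hP cP cQ hQ hA,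
    fun _ _ _ hP cP cQ hQ gP => joined_of_apart hP cP cQ hQ (apart_of_gap gP)⟩
  · obtain ⟨H, h1, h2⟩ := ThinH.generic_len n fold a ha
    exact ⟨H, h1, fun ℓ hℓ => generic_thin ha (h2 ℓ hℓ)⟩
  · obtain ⟨H, h1, h2⟩ := ThinH.generic_ang n fold ℓ hl
    exact ⟨H, h1, fun a ha hA => generic_thin ha (h2 a hA)⟩

end Pool.Agent.Results.MP_07bb12_co.ThinChains
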