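import Pool.Agent.FlatN.Master
import Pool.Agent.FlatN.Comp

/-!
# Weakly loose joints and half flips: components of the free space with flat states
-/

set_option autoImplicit false

namespace Pool.Agent.Results.MP_07bb12_co.WeaklyLooseJoints

open Real Pool.Agent.Lib_helper54.Flat Pool.Agent.FlatW Pool.Agent.FlatN

/-- Let `P` be a flat non-self-intersecting configuration of an open fixed-angle chain with `n`
links of the lengths `len P 0, ..., len P (n - 1)` and the joint angles
`jointAngle P 0, ..., jointAngle P (n - 2)` (joint `i` is between the links `i` and `i + 1`).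

At most `2 ^ ((n - 4) / 2)` path components of the free space contain flat configurations (at most
one if `n ≤ 5`).

(a) For `c`, `d` as in `LeftEnd`, `RightEnd` (for instance `0`) let `T` be the set of the joints
`i` with `1 + c ≤ i ≤ n - 3 - d` that are not weakly loose. It has at most
`1 + (n - 4 - c - d) / 2` elements, and at most `2 ^ (|T| - 1)` path components of the free space
contain flat configurations.

All flat configurations are in one path component in each of the following cases:
(b) for some `μ > 0` all joint angles are at least `μ` and none is in the open interval from `2 μ`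
to `π - μ`;
(c) for some `p`, between any two joints `i < j` that are not weakly loose and have only weakly loose
joints between them there is a link `k` (`i < k ≤ j`) such that, if `p ≤ i`, the links from `k` on
have a flat non-self-intersecting placement on one side of the line of the link `k`, and, if
`i < p`, the links up to `k` have such a placement.

(d) `P` and a flat configuration `Q` of the free space are in one path component if they are
connected by a sequence of steps, see `FlipStep` (for instance if they turn alike at the joints that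
are not weakly loose). -/
theorem result {n : ℕ} {P : Fin (n + 1) → E3} (hP : IsSimple P)
    (cP : Coplanar ℝ (Set.range P)) :
    (flatComponents P).encard ≤ 2 ^ ((n - 4) / 2) ∧
    (∀ c d : ℕ, LeftEnd P c → RightEnd P d → ∀ T : Finset ℕ,
      (∀ i, i ∈ T ↔ 1 + c ≤ i ∧ i + 3 + d ≤ n ∧ ¬ WeaklyLoose n (jointAngle P) i) →
      T.card - 1 ≤ (n - 4 - c - d) / 2 ∧ (flatComponents P).encard ≤ 2 ^ (T.card - 1)) ∧
    ∀ Q ∈ freeSpace P, Coplanar ℝ (Set.range Q) →
      ((∃ μ : ℝ, 0 < μ ∧ ∀ k, k + 2 ≤ n →
        μ ≤ jointAngle P k ∧ (jointAngle P k ≤ 2 * μ ∨ π - μ ≤ jointAngle P k)) ∨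
      (∃ p : ℕ, ∀ i j, i < j → j + 2 ≤ n → ¬ WeaklyLoose n (jointAngle P) i →
        ¬ WeaklyLoose n (jointAngle P) j →
        (∀ m, i < m → m < j → WeaklyLoose n (jointAngle P) m) →
        (p ≤ i ∧ ∃ k, i < k ∧ k ≤ j ∧ RightSide n (len P) (jointAngle P) k) ∨
        (i < p ∧ ∃ k, i < k ∧ k ≤ j ∧ LeftSide (len P) (jointAngle P) k)) ∨
      Relation.EqvGen (FlipStep P) P Q) →
      JoinedIn (freeSpace P) P Q := by
  refine ⟨comp_all hP cP, fun c d hc hd T hT => comp3 hP cP hc hd hT, ?_⟩
  intro Q hQ cQ H
  have hD := data_of_simple hP
  have h1 : ∀ j, jointAngle P j ≤ π := hD.ang_le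
  rcases H with ⟨μ, hμ, h2⟩ | ⟨p, H⟩ | H
  · apply main_side2 hP cP cQ hQ 0
    intro i j hij hj hi' hj' hm
    exact absurd (weaklyLoose_of_mu h1 hμ (fun k hk => (h2 k hk).1) hj (h2 j hj).2) hj'
  · exact main_side2 hP cP cQ hQ p H
  · exact master hP cP cQ hQ H

end Pool.Agent.Results.MP_07bb12_co.WeaklyLooseJoints
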